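import Mathlib
import Pool.Agent.helper37.NF.Spec

set_option autoImplicit false

namespace Pool.Agent.helper37.NF

open Finset Pool.Agent.NK

theorem REC_nat (i : ℕ) : cc i * i.factorial * (3 * i).factorial = (4 * i).factorial := by
  have h := Nat.choose_mul_factorial_mul_factorial (show i ≤ 4 * i by omega)
  have e : 4 * i - i = 3 * i := by omega
  rw [e] at h
  exact h

theorem REC : REC_stmt := by
  intro i
  have h0 := REC_nat i
  have h1 := REC_nat (i + 1)
  have e3 : (3 * (i + 1)).factorial =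
      (3 * i + 3) * ((3 * i + 2) * ((3 * i + 1) * (3 * i).factorial)) := by
    have : 3 * (i + 1) = 3 * i + 2 + 1 := by ring
    rw [this, Nat.factorial_succ, Nat.factorial_succ, Nat.factorial_succ]
  have e4 : (4 * (i + 1)).factorial =
      (4 * i + 4) * ((4 * i + 3) * ((4 * i + 2) * ((4 * i + 1) * (4 * i).factorial))) := by
    have : 4 * (i + 1) = 4 * i + 3 + 1 := by ring
    rw [this, Nat.factorial_succ, Nat.factorial_succ, Nat.factorial_succ, Nat.factorial_succ]
  rw [e3, e4, Nat.factorial_succ, ← h0] at h1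
  have hR : (cc (i + 1) : ℝ) * (((i : ℝ) + 1) * i.factorial) *
      ((3 * i + 3) * ((3 * i + 2) * ((3 * i + 1) * (3 * i).factorial))) =
      (4 * i + 4) * ((4 * i + 3) * ((4 * i + 2) * ((4 * i + 1) *
        (cc i * i.factorial * (3 * i).factorial)))) := by
    exact_mod_cast h1
  have f1 : (i.factorial : ℝ) ≠ 0 := by exact_mod_cast i.factorial_ne_zero
  have f3 : ((3 * i).factorial : ℝ) ≠ 0 := by exact_mod_cast (3 * i).factorial_ne_zero
  have hi : (0 : ℝ) ≤ i := Nat.cast_nonneg i
  have hden : ((3 * (i : ℝ) + 1) * (3 * i + 2) * (3 * i + 3)) ≠ 0 := by positivity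
  have hi1 : (i : ℝ) + 1 ≠ 0 := by positivity
  have key : (cc (i + 1) : ℝ) * ((3 * (i : ℝ) + 1) * (3 * i + 2) * (3 * i + 3)) =
      4 * (4 * i + 1) * (4 * i + 2) * (4 * i + 3) * cc i := by
    apply mul_left_cancel₀ (mul_ne_zero (mul_ne_zero hi1 f1) f3)
    linear_combination hR
  unfold rho
  rw [div_mul_eq_mul_div, eq_div_iff hden]
  exact key

end Pool.Agent.helper37.NF
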